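import Mathlib
import Pool.Agent.Y575.MA.Main

/-!
# MP_294c13_lc: consistently `add(𝔛, 𝔇) < cov(M)`

Hechler forcing along the product order `κ × λ`: the generic functions `f (i, η)` are ordered by
`≤*` along the product order and form a dominating family. Each row `{f (i, η) | η < λ}` is a
`≤*`-chain, so every function which is not dominated by a member of the row avoids middles in it;
the functions of a later row are such functions. On the other hand the function added at `(i, η)`
yields a Cohen real over the extension by all coordinates whose second entry is below `η`.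

The forcing language is the one of `Pool.Agent.Helper669.Forcing`; the sentences about avoiding
middles are in `Pool.Agent.Y575.MA.Defs`.
-/

set_option autoImplicit false

namespace Pool.Agent.Results.MP_294c13_lc.CovAboveMiddles

open Cardinal Pool.Agent.Helper669.Forcing Pool.Agent.Y575.MA

/-- In the extension `cov(M) ≤ add(𝔛, 𝔇)`: whenever there are sets indexed by `μ` in each of which
some function avoids middles and whose union is dominating, then the Baire space is covered by
meager sets indexed by `μ`. -/
def CovLeAddXD (P : Type) [Preorder P] : Set P :=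
  fall fun μ : Cardinal.{0} => fimp (AddXDLe P μ.out) (CovLe P μ.out)

/-- Let `κ < lam` be uncountable regular cardinals (for example `ℵ₁` and `ℵ₂`). There is a forcing
notion `P` satisfying the countable chain condition, all of whose conditions force: all cardinals
of the ground model are preserved, `add(𝔛, 𝔇) ≤ κ`, and `cov(M) ≥ lam` (there is no cover of the
Baire space by fewer than `lam` meager sets); so every condition forces the negation of
`cov(M) ≤ add(𝔛, 𝔇)`. -/
theorem result (κ lam : Cardinal.{0}) (hκ : κ.IsRegular) (hlam : lam.IsRegular) (h0 : ℵ₀ < κ)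
    (hlt : κ < lam) :
    ∃ (P : Type) (_ : Preorder P), Nonempty P ∧
      (∀ A : Set P, (∀ a ∈ A, ∀ b ∈ A, a ≠ b → ¬ ∃ s, s ≤ a ∧ s ≤ b) → A.Countable) ∧
      ∀ p : P, p ∈ CardinalsPreserved.{0, 0} P ∧
        p ∈ AddXDLe P κ.out ∧
        (∀ μ : Cardinal.{0}, μ < lam → p ∈ fnot (CovLe P μ.out)) ∧
        p ∈ fnot (CovLeAddXD P) := by
  have hlam0 : ℵ₀ < lam := h0.trans hlt
  refine ⟨PP κ lam, inferInstance, inferInstance, fun A hA => ?_, fun p => ⟨?_, ?_, ?_, ?_⟩⟩
  · by_contra hcount
    have hcount' : ¬ Countable A := hcount
    obtain ⟨y, y', hne, h⟩ := cond_ccc (Q := QQ κ lam) (fun a : A => a.1) hcount'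
    exact hA y.1 y.2 y'.1 y'.2 (fun h' => hne (Subtype.ext h')) h
  · exact cardinalsPreserved (Q := QQ κ lam) p
  · exact addXDLe hκ hlam h0 hlam0 p
  · exact fun μ hμ => not_covLe hκ hlam h0 hlam0 hμ p
  · intro q _ hq
    obtain ⟨r, hr, hr'⟩ := mem_fimp.1 (hq κ) q le_rfl (addXDLe hκ hlam h0 hlam0 q)
    exact not_covLe hκ hlam h0 hlam0 hlt r r le_rfl hr'

end Pool.Agent.Results.MP_294c13_lc.CovAboveMiddles
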